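import Pool.Agent.Y68.AR.Main

/-!
Two variables over a field with irreducible polynomials of arbitrarily large degree: the regularity
is unbounded.
-/

set_option autoImplicit false

set_option linter.unusedSectionVars false

open MvPolynomial Filter

universe u

namespace Pool.Agent.Y68.AR

variable {K : Type u} [Field K] [CharZero K]

/-- the weights -/
def ww : Fin 2 → ℕ := ![0, 1]

theorem wt_ww (α : Fin 2 →₀ ℕ) : wt ww α = α 1 := by
  simp [wt, ww]

theorem degree_two (α : Fin 2 →₀ ℕ) : α.degree = α 0 + α 1 := by
  rw [Finsupp.degree_eq_sum, Fin.sum_univ_two]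

/-- The homogeneous ideal of the closed point of the projective line given by `p`. -/
noncomputable def pt (p : Polynomial K) : Ideal (S K 2) :=
  Ideal.comap (phi ww) (Ideal.span {Polynomial.C p})

theorem mem_pt (p : Polynomial K) (g : S K 2) :
    g ∈ pt p ↔ ∀ k, p ∣ (phi ww g).coeff k := by
  rw [pt, Ideal.mem_comap, Ideal.mem_span_singleton, Polynomial.C_dvd_iff_dvd_coeff]

theorem phi_homogeneousComponent (k l : ℕ) (g : S K 2) :
    (phi ww (homogeneousComponent l g)).coeff k = if k = l then (phi ww g).coeff k else 0 := by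
  ext j
  have := cf_homogeneousComponent ww k l j g
  rw [cf_apply] at this
  rw [this]
  split_ifs
  · rfl
  · simp

theorem pt_isSaturatedHomogeneous (p : Polynomial K) : IsSaturatedHomogeneous (pt p) where
  homogeneous := by
    intro g hg k
    rw [mem_pt] at hg ⊢
    intro l
    rw [phi_homogeneousComponent]
    split_ifs
    · exact hg l
    · exact dvd_zero _
  saturated := by
    intro g hg
    have h0 := hg 0
    rw [mem_pt] at h0 ⊢
    intro k
    have h1 := h0 (k + 1)
    rw [map_mul] at h1
    have h2 : phi (K := K) ww (X 0) = Polynomial.X := by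
      rw [phi, aeval_X]
      simp [ww]
    rwa [h2, Polynomial.coeff_X_mul] at h1

theorem pt_isPrime {p : Polynomial K} (hp : Irreducible p) : (pt p).IsPrime := by
  have h1 : (Ideal.span {(Polynomial.C p : Polynomial (Polynomial K))}).IsPrime := by
    rw [Ideal.span_singleton_prime (Polynomial.C_ne_zero.mpr hp.ne_zero)]
    exact Polynomial.prime_C_iff.mpr hp.prime
  exact Ideal.comap_isPrime (phi ww) _

/-- The coefficients of the image of a form are bounded in degree. -/
theorem coeff_phi_eq_zero {k j : ℕ} (hj : k < j) (g : S K 2) :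
    ((phi ww g).coeff k).coeff j = 0 := by
  rw [← cf_apply, cf_eq]
  apply Finset.sum_eq_zero
  intro α _
  rw [if_neg]
  rintro ⟨h1, h2⟩
  rw [wt_ww] at h2
  rw [degree_two] at h1
  omega

theorem eq_zero_of_phi {k : ℕ} {g : S K 2} (hg : g.IsHomogeneous k)
    (h : (phi ww g).coeff k = 0) : g = 0 := by
  ext α
  rw [coeff_zero]
  by_cases hα : α.degree = k
  · have h1 := cf_eq_coeff ww g α (by
      intro α' h1 h2
      rw [wt_ww, wt_ww] at h2
      rw [degree_two, degree_two] at h1
      ext i
      fin_cases i
      · show α' 0 = α 0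
        omega
      · exact h2)
    rw [← h1, cf_apply, hα, h, Polynomial.coeff_zero]
  · exact hg.coeff_eq_zero hα

/-- There are no nonzero forms of degree smaller than the degree of `p` in the ideal. -/
theorem pt_small {p : Polynomial K} {k : ℕ} (hk : k < p.natDegree) {g : S K 2}
    (hg : g.IsHomogeneous k) (h : g ∈ pt p) : g = 0 := by
  apply eq_zero_of_phi hg
  rw [mem_pt] at h
  by_contra hne
  have h1 := Polynomial.natDegree_le_of_dvd (h k) hne
  have h2 : ((phi ww g).coeff k).natDegree ≤ k := by
    rw [Polynomial.natDegree_le_iff_coeff_eq_zero]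
    intro j hj
    exact coeff_phi_eq_zero hj g
  omega

/-- The homogenisation of `p`. -/
theorem pt_form {p : Polynomial K} (hp : p ≠ 0) :
    ∃ g : S K 2, g.IsHomogeneous p.natDegree ∧ g ≠ 0 ∧ g ∈ pt p := by
  set e := p.natDegree with he
  set g : S K 2 := ∑ j ∈ Finset.range (e + 1),
    monomial (Finsupp.single 0 (e - j) + Finsupp.single 1 j) (p.coeff j) with hg
  have hphi : phi ww g = Polynomial.monomial e p := by
    rw [hg, map_sum]
    have h1 : ∀ j ∈ Finset.range (e + 1),
        phi ww (monomial (Finsupp.single 0 (e - j) + Finsupp.single 1 j) (p.coeff j)) =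
          Polynomial.monomial e (Polynomial.monomial j (p.coeff j)) := by
      intro j hj
      rw [Finset.mem_range] at hj
      rw [phi_monomial]
      have h2 : (Finsupp.single (0 : Fin 2) (e - j) + Finsupp.single 1 j).degree = e := by
        rw [map_add, Finsupp.degree_single, Finsupp.degree_single]
        omega
      have h3 : wt ww (Finsupp.single (0 : Fin 2) (e - j) + Finsupp.single 1 j) = j := by
        rw [wt_ww]
        simp
      rw [h2, h3]
    rw [Finset.sum_congr rfl h1, ← map_sum]
    congr 1
    exact (Polynomial.as_sum_range' p (e + 1) (by omega)).symm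
  refine ⟨g, ?_, ?_, ?_⟩
  · rw [hg]
    apply IsHomogeneous.sum
    intro j hj
    rw [Finset.mem_range] at hj
    apply isHomogeneous_monomial
    rw [map_add, Finsupp.degree_single, Finsupp.degree_single]
    omega
  · intro h0
    rw [h0, map_zero] at hphi
    have := congrArg (fun q => q.coeff e) hphi
    simp only [Polynomial.coeff_zero, Polynomial.coeff_monomial, if_true] at this
    exact hp this.symm
  · rw [mem_pt]
    intro k
    rw [hphi, Polynomial.coeff_monomial]
    split_ifs
    · exact dvd_rfl
    · exact dvd_zero _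

theorem pt_ne_top {p : Polynomial K} (hp : Irreducible p) : pt p ≠ ⊤ := (pt_isPrime hp).ne_top

/-- The Hilbert function in large degrees. -/
theorem hilb_pt_const {p : Polynomial K} (hp : Irreducible p) (j : ℕ) :
    hilb (pt p) (p.natDegree - 1 + j) = hilb (pt p) (p.natDegree - 1) := by
  obtain ⟨g, hg, hg0, hgI⟩ := pt_form hp.ne_zero
  induction j with
  | zero => rfl
  | succ j ih =>
    rw [← ih, ← add_assoc]
    exact hilb_succ (pt_isSaturatedHomogeneous p) (pt_ne_top hp) hgI hg hg0 (by omega)

/-- In small degrees the Hilbert function is the dimension of the space of forms. -/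
theorem hilb_pt_small {p : Polynomial K} {i : ℕ} (hi : i < p.natDegree) :
    hilb (pt p) i = Module.finrank K (homogeneousSubmodule (Fin 2) K i) := by
  have h1 : hilb (pt p) i = Module.finrank K ((homogeneousSubmodule (Fin 2) K i).map
      (LinearMap.id : (S K 2) →ₗ[K] (S K 2))) := by
    rw [hilb]
    apply finrank_map_eq
    intro g hg
    constructor
    · intro h0
      exact pt_small hi hg (Ideal.Quotient.eq_zero_iff_mem.1 h0)
    · intro h0
      rw [LinearMap.id_apply] at h0
      rw [h0, map_zero]
  rwa [Submodule.map_id] at h1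

theorem le_hilb_pt {p : Polynomial K} {i : ℕ} (hi : i < p.natDegree) : i ≤ hilb (pt p) i := by
  rw [hilb_pt_small hi]
  have hfg : Module.Finite K (homogeneousSubmodule (Fin 2) K i) :=
    Module.Finite.iff_fg.2 (homogeneousSubmodule_fg (Fin 2) K i)
  have h2 := Submodule.finrank_map_le (cfv ww i i) (homogeneousSubmodule (Fin 2) K i)
  have h3 : hilb (curv K ww i) i = i :=
    hilb_curv_large (n := 0) ww rfl rfl i i le_rfl
  rw [hilb_curv] at h3
  exact h3.symm.le.trans h2

theorem hilb_pt_le {p : Polynomial K} {i : ℕ} (hi : i < p.natDegree) :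
    hilb (pt p) i ≤ i + 1 := by
  have h1 : hilb (pt p) i = hilb (curv K ww (i + 1)) i := by
    rw [hilb, hilb]
    apply finrank_map_eq
    intro g hg
    rw [mem_homogeneousSubmodule] at hg
    constructor
    · intro h0
      rw [pt_small hi hg (Ideal.Quotient.eq_zero_iff_mem.1 h0), map_zero]
    · intro h0
      have h1 := (mem_curv_of_isHomogeneous ww (i + 1) hg).1 (Ideal.Quotient.eq_zero_iff_mem.1 h0)
      have h2 : g = 0 := by
        apply eq_zero_of_phi hg
        ext j
        rw [Polynomial.coeff_zero]
        by_cases hj : j < i + 1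
        · exact h1 j hj
        · exact coeff_phi_eq_zero (by omega) g
      rw [h2, map_zero]
  rw [h1]
  have h2 := hilb_curv_le (K := K) ww (i + 1) i Finset.univ (fun _ _ _ _ => Finset.mem_univ _)
  simpa using h2

theorem eventually_pt {p : Polynomial K} (hp : Irreducible p) :
    ∀ᶠ i in atTop, hilb (pt p) i = hilb (pt p) (p.natDegree - 1) :=
  eventually_atTop.2 ⟨p.natDegree - 1, fun i hi => by
    obtain ⟨j, rfl⟩ := Nat.exists_eq_add_of_le hi
    exact hilb_pt_const hp j⟩

theorem pt_isZeroDimScheme {p : Polynomial K} (hp : Irreducible p) (h2 : 2 ≤ p.natDegree) :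
    IsZeroDimScheme (pt p) where
  toIsSaturatedHomogeneous := pt_isSaturatedHomogeneous p
  zeroDim := by
    refine ⟨hilb (pt p) (p.natDegree - 1), ?_, eventually_pt hp⟩
    have := le_hilb_pt (p := p) (i := p.natDegree - 1) (by omega)
    omega

theorem le_reg_pt {p : Polynomial K} (hp : Irreducible p) (h2 : 2 ≤ p.natDegree) :
    p.natDegree - 2 ≤ reg (pt p) := by
  rw [reg, degree_eq (eventually_pt hp)]
  refine le_csInf ⟨p.natDegree - 1, rfl⟩ ?_
  intro k hk
  by_contra hlt
  push Not at hlt
  have h3 : hilb (pt p) k = hilb (pt p) (p.natDegree - 1) := hk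
  have h4 := hilb_pt_le (p := p) (i := k) (by omega)
  have h5 := le_hilb_pt (p := p) (i := p.natDegree - 1) (by omega)
  omega

theorem act_one {n : ℕ} (f : S K n) : act 1 f = f := by
  have h := act_monomial (0 : Fin n →₀ ℕ) f
  have h1 : (monomial 0 1 : S K n) = 1 := rfl
  rw [h1] at h
  rw [h, partialPow]
  simp

theorem irredundant_pt {p : Polynomial K} (hp : Irreducible p) {d : ℕ} (hd : d < p.natDegree)
    {f : S K 2} (hf : f.IsHomogeneous d) (hf0 : f ≠ 0) : Irredundant (pt p) f := by
  refine ⟨?_, ?_⟩
  · intro q hq
    rw [act]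
    apply Finset.sum_eq_zero
    intro α hα
    by_cases hd' : d < α.degree
    · rw [partialPow_eq_zero hf hd', smul_zero]
    · have h1 := (pt_isSaturatedHomogeneous p).homogeneous q hq α.degree
      have h3 := pt_small (by omega) (homogeneousComponent_isHomogeneous α.degree q) h1
      have h4 : coeff α q = 0 := by
        have := coeff_homogeneousComponent α.degree q α
        rw [if_pos rfl, h3, coeff_zero] at this
        exact this.symm
      rw [h4, zero_smul]
  · intro J hJ hle hap
    by_contra hne
    obtain ⟨q, hqJ, hq⟩ : ∃ q ∈ J, q ∉ pt p := by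
      by_contra hcon
      push Not at hcon
      exact hne (le_antisymm hcon hle)
    obtain ⟨k, hk⟩ : ∃ k, homogeneousComponent k q ∉ pt p := by
      by_contra hcon
      push Not at hcon
      apply hq
      rw [← sum_homogeneousComponent q]
      exact Ideal.sum_mem _ fun i _ => hcon i
    set h : S K 2 := homogeneousComponent k q with hh
    have hhJ : h ∈ J := hJ.homogeneous q hqJ k
    have hhom : h.IsHomogeneous k := homogeneousComponent_isHomogeneous k q
    have hprime := pt_isPrime hp
    set i := p.natDegree - 1 with hi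
    -- multiplication by `h` is onto in large degrees
    have hmap : (homogeneousSubmodule (Fin 2) K i).map
        ((Ideal.Quotient.mkₐ K (pt p)).toLinearMap ∘ₗ LinearMap.mulLeft K h) =
        (homogeneousSubmodule (Fin 2) K (i + k)).map (Ideal.Quotient.mkₐ K (pt p)).toLinearMap := by
      have hfg : Module.Finite K (homogeneousSubmodule (Fin 2) K (i + k)) :=
        Module.Finite.iff_fg.2 (homogeneousSubmodule_fg (Fin 2) K (i + k))
      apply Submodule.eq_of_le_of_finrank_eq
      · rintro _ ⟨t, ht, rfl⟩
        rw [SetLike.mem_coe, mem_homogeneousSubmodule] at ht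
        refine ⟨h * t, ?_, rfl⟩
        rw [SetLike.mem_coe, mem_homogeneousSubmodule, add_comm]
        exact hhom.mul ht
      · have e1 : Module.finrank K ((homogeneousSubmodule (Fin 2) K i).map
            ((Ideal.Quotient.mkₐ K (pt p)).toLinearMap ∘ₗ LinearMap.mulLeft K h)) =
            hilb (pt p) i := by
          rw [hilb]
          apply finrank_map_eq
          intro t _
          show Ideal.Quotient.mk (pt p) (h * t) = 0 ↔ Ideal.Quotient.mk (pt p) t = 0
          rw [Ideal.Quotient.eq_zero_iff_mem, Ideal.Quotient.eq_zero_iff_mem]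
          exact ⟨fun h1 => (hprime.mem_or_mem h1).resolve_left hk,
            fun h1 => Ideal.mul_mem_left _ _ h1⟩
        rw [e1]
        exact (hilb_pt_const hp k).symm
    -- all forms of degree `i + k` belong to `J`
    have hall : ∀ t : S K 2, t.IsHomogeneous (i + k) → t ∈ J := by
      intro t ht
      have h1 : (Ideal.Quotient.mkₐ K (pt p)).toLinearMap t ∈
          (homogeneousSubmodule (Fin 2) K (i + k)).map
            (Ideal.Quotient.mkₐ K (pt p)).toLinearMap := ⟨t, ht, rfl⟩
      rw [← hmap] at h1
      obtain ⟨s, _, hs⟩ := h1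
      have h2 : Ideal.Quotient.mk (pt p) (h * s) = Ideal.Quotient.mk (pt p) t := hs
      rw [Ideal.Quotient.eq] at h2
      have h3 : t = h * s - (h * s - t) := by ring
      rw [h3]
      exact J.sub_mem (J.mul_mem_right _ hhJ) (hle h2)
    have hdown : ∀ N : ℕ, (∀ t : S K 2, t.IsHomogeneous N → t ∈ J) → (1 : S K 2) ∈ J := by
      intro N
      induction N with
      | zero => intro h1; exact h1 1 (isHomogeneous_one _ _)
      | succ N ih =>
        intro h1
        apply ih
        intro t ht
        apply hJ.saturated
        intro j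
        apply h1
        rw [add_comm N 1]
        exact (isHomogeneous_X K j).mul ht
    have h1 := hap 1 (hdown _ hall)
    rw [act_one] at h1
    exact hf0 h1

theorem M_two_top (hK : ∀ N : ℕ, ∃ p : Polynomial K, Irreducible p ∧ N ≤ p.natDegree) (d : ℕ) :
    M K 2 d = ⊤ := by
  have key : ∀ N : ℕ, (N : ℕ∞) ≤ M K 2 d := by
    intro N
    obtain ⟨p, hp, hN⟩ := hK (N + d + 2)
    have h1 : N ≤ reg (pt p) := le_trans (by omega) (le_reg_pt hp (by omega))
    have hf0 : (X 0 ^ d : S K 2) ≠ 0 := pow_ne_zero _ (X_ne_zero _)
    have h2 := le_M (isHomogeneous_X_pow (R := K) (0 : Fin 2) d) hf0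
      (pt_isZeroDimScheme hp (by omega))
      (irredundant_pt hp (by omega) (isHomogeneous_X_pow (R := K) (0 : Fin 2) d) hf0)
    exact le_trans (by exact_mod_cast h1) h2
  rw [ENat.eq_top_iff_forall_ge]
  exact key

/-- Cyclotomic polynomials. -/
theorem rat_unbounded (N : ℕ) : ∃ p : Polynomial ℚ, Irreducible p ∧ N ≤ p.natDegree := by
  obtain ⟨q, hq, hp⟩ := Nat.exists_infinite_primes (N + 1)
  refine ⟨Polynomial.cyclotomic q ℚ, Polynomial.cyclotomic.irreducible_rat hp.pos, ?_⟩
  rw [Polynomial.natDegree_cyclotomic, Nat.totient_prime hp]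
  omega

end Pool.Agent.Y68.AR
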