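import Mathlib

/-!
# The largest regularity of an irredundant apolar scheme

For a form `f` of degree `d` in `n` variables we determine the supremum `M n d` of the regularities
of the zero-dimensional schemes which are irredundant for `f`:
`M 1 d = 0`, `M 2 d = d` and `M n d = ⊤` for all `n ≥ 3`.
-/

set_option autoImplicit false

open MvPolynomial Filter

universe u

namespace Pool.Agent.Y68.AR

variable {K : Type u} [Field K]

/-- The polynomial ring in `n` variables over `K`. It is used both for the homogeneous coordinate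
ring `Sym (V^*)` of `ℙV`, `dim V = n`, and (in the dual coordinates) for `Sym V`. -/
abbrev S (K : Type u) [Field K] (n : ℕ) : Type u := MvPolynomial (Fin n) K

/-- The differential operator `∂^α = ∏ᵢ (∂ / ∂xᵢ) ^ (αᵢ)`. -/
noncomputable def partialPow {n : ℕ} (α : Fin n →₀ ℕ) : Module.End K (S K n) :=
  ((List.finRange n).map (fun i => ((pderiv i : Derivation K (S K n) (S K n)) :
    Module.End K (S K n)) ^ (α i))).prod

/-- The action of `Sym (V^*)` on `Sym V` by differentiation: `g ∘ f = ∑_α g_α ∂^α f`. -/
noncomputable def act {n : ℕ} (g f : (S K n)) : (S K n) := ∑ α ∈ g.support, coeff α g • partialPow α f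

/-- `I` is the saturated homogeneous ideal of a closed subscheme of `ℙ^(n-1)`: it contains the
homogeneous components of its elements, and `(I : (x₁, …, xₙ)) = I`. -/
structure IsSaturatedHomogeneous {n : ℕ} (I : Ideal (S K n)) : Prop where
  homogeneous : ∀ g ∈ I, ∀ k, homogeneousComponent k g ∈ I
  saturated : ∀ g, (∀ i, X i * g ∈ I) → g ∈ I

/-- The Hilbert function `i ↦ dim (S / I)_i`, where `(S / I)_i` is the image in `S / I` of the space
of forms of degree `i`. -/
noncomputable def hilb {n : ℕ} (I : Ideal (S K n)) (i : ℕ) : ℕ :=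
  Module.finrank K (Submodule.map (Ideal.Quotient.mkₐ K I).toLinearMap
    (homogeneousSubmodule (Fin n) K i))

/-- `I` is the saturated homogeneous ideal of a (nonempty) zero-dimensional subscheme of
`ℙ^(n-1)`: the Hilbert polynomial is a nonzero constant. -/
structure IsZeroDimScheme {n : ℕ} (I : Ideal (S K n)) : Prop extends IsSaturatedHomogeneous I where
  zeroDim : ∃ δ, 0 < δ ∧ ∀ᶠ i in atTop, hilb I i = δ

/-- The degree of a zero-dimensional scheme: the value of `hilb I i` for all large `i`. -/
noncomputable def degree {n : ℕ} (I : Ideal (S K n)) : ℕ := sInf {δ | ∀ᶠ i in atTop, hilb I i = δ}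

/-- The regularity of (the homogeneous coordinate ring of) a zero-dimensional scheme: the least
`i` with `hilb I i = degree I`. -/
noncomputable def reg {n : ℕ} (I : Ideal (S K n)) : ℕ := sInf {i | hilb I i = degree I}

/-- The scheme of `I` is apolar to `f`: `I ⊆ Ann f`. -/
def Apolar {n : ℕ} (I : Ideal (S K n)) (f : (S K n)) : Prop := ∀ g ∈ I, act g f = 0

/-- The scheme of `I` is irredundant for `f`: it is apolar to `f` and no proper closed subscheme
of it is apolar to `f`. -/
def Irredundant {n : ℕ} (I : Ideal (S K n)) (f : (S K n)) : Prop :=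
  Apolar I f ∧ ∀ J : Ideal (S K n), IsSaturatedHomogeneous J → I ≤ J → Apolar J f → J = I

variable (K) in
/-- `M K n d` is the supremum of `reg X` over all forms `f ≠ 0` of degree `d` in `n` variables and all
zero-dimensional schemes `X` irredundant for `f`. -/
noncomputable def M (n d : ℕ) : ℕ∞ :=
  ⨆ (f : (S K n)) (I : Ideal (S K n))
    (_ : f.IsHomogeneous d ∧ f ≠ 0 ∧ IsZeroDimScheme I ∧ Irredundant I f), (reg I : ℕ∞)

variable [CharZero K]

/-! ### Differentiation of monomials -/

theorem pderiv_pow_monomial {n : ℕ} (i : Fin n) (k : ℕ) (β : Fin n →₀ ℕ) (c : K) :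
    (((pderiv i : Derivation K (S K n) (S K n)) : Module.End K (S K n)) ^ k) (monomial β c) =
      monomial (β - Finsupp.single i k) (c * ((β i).descFactorial k : ℕ)) := by
  induction k with
  | zero => simp
  | succ k ih =>
    rw [pow_succ', Module.End.mul_apply, ih]
    show pderiv i _ = _
    rw [pderiv_monomial]
    congr 1
    · rw [tsub_tsub, ← Finsupp.single_add]
    · rw [Nat.descFactorial_succ]
      simp only [Finsupp.coe_tsub, Pi.sub_apply, Finsupp.single_eq_same]
      push_cast
      ring

theorem list_monomial {n : ℕ} (α β : Fin n →₀ ℕ) (c : K) (l : List (Fin n)) (hl : l.Nodup) :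
    ((l.map (fun i => ((pderiv i : Derivation K (S K n) (S K n)) :
      Module.End K (S K n)) ^ (α i))).prod) (monomial β c) =
      monomial (β - (l.map (fun i => Finsupp.single i (α i))).sum)
        (c * ((l.map (fun i => (β i).descFactorial (α i))).prod : ℕ)) := by
  induction l with
  | nil => simp
  | cons i l ih =>
    have hi : i ∉ l := (List.nodup_cons.1 hl).1
    rw [List.map_cons, List.prod_cons, Module.End.mul_apply, ih (List.nodup_cons.1 hl).2,
      pderiv_pow_monomial]
    have h0 : ((l.map (fun i => Finsupp.single i (α i))).sum) i = 0 := by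
      clear ih hl
      induction l with
      | nil => simp
      | cons j l ih =>
        rw [List.map_cons, List.sum_cons, Finsupp.add_apply, ih (fun h => hi (List.mem_cons_of_mem _ h))]
        have : j ≠ i := fun h => hi (h ▸ List.mem_cons_self ..)
        simp [this]
    congr 1
    · rw [List.map_cons, List.sum_cons, tsub_tsub, add_comm]
    · rw [List.map_cons, List.prod_cons, Finsupp.coe_tsub, Pi.sub_apply, h0, Nat.sub_zero]
      push_cast
      ring

theorem partialPow_monomial {n : ℕ} (α β : Fin n →₀ ℕ) (c : K) :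
    partialPow α (monomial β c) =
      monomial (β - α) (c * ((∏ i, (β i).descFactorial (α i) : ℕ) : K)) := by
  rw [partialPow, list_monomial α β c _ (List.nodup_finRange n), ← List.ofFn_eq_map,
    ← List.ofFn_eq_map, List.sum_ofFn, List.prod_ofFn, Finsupp.univ_sum_single α]

theorem partialPow_monomial_eq_zero {n : ℕ} {α β : Fin n →₀ ℕ} (c : K) (h : ¬ α ≤ β) :
    partialPow α (monomial β c) = 0 := by
  rw [partialPow_monomial]
  obtain ⟨i, hi⟩ : ∃ i, β i < α i := by
    by_contra hno
    push Not at hno
    exact h hno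
  have : (∏ i, (β i).descFactorial (α i)) = 0 :=
    Finset.prod_eq_zero (Finset.mem_univ i) (Nat.descFactorial_eq_zero_iff_lt.2 hi)
  rw [this]
  simp

theorem partialPow_monomial_ne_zero {n : ℕ} {α β : Fin n →₀ ℕ} {c : K} (hc : c ≠ 0) (h : α ≤ β) :
    partialPow α (monomial β c) ≠ 0 := by
  rw [partialPow_monomial]
  intro h0
  rw [monomial_eq_zero] at h0
  rcases mul_eq_zero.1 h0 with h1 | h1
  · exact hc h1
  · rw [Nat.cast_eq_zero, Finset.prod_eq_zero_iff] at h1
    obtain ⟨i, _, hi⟩ := h1
    exact absurd (Nat.descFactorial_eq_zero_iff_lt.1 hi) (not_lt.2 (h i))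

theorem act_monomial {n : ℕ} (α : Fin n →₀ ℕ) (f : (S K n)) :
    act (monomial α 1) f = partialPow α f := by
  classical
  rw [act, support_monomial, if_neg one_ne_zero]
  simp

/-! ### Hilbert functions -/

theorem finrank_map_eq {V W₁ W₂ : Type*} [AddCommGroup V] [Module K V] [AddCommGroup W₁]
    [Module K W₁] [AddCommGroup W₂] [Module K W₂] (f₁ : V →ₗ[K] W₁) (f₂ : V →ₗ[K] W₂)
    (p : Submodule K V) (h : ∀ x ∈ p, f₁ x = 0 ↔ f₂ x = 0) :
    Module.finrank K (p.map f₁) = Module.finrank K (p.map f₂) := by
  have h1 : LinearMap.ker (f₁.domRestrict p) = LinearMap.ker (f₂.domRestrict p) := by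
    ext x
    simp only [LinearMap.mem_ker, LinearMap.domRestrict_apply]
    exact h x.1 x.2
  rw [← LinearMap.range_domRestrict, ← LinearMap.range_domRestrict]
  exact LinearEquiv.finrank_eq ((f₁.domRestrict p).quotKerEquivRange.symm ≪≫ₗ
    Submodule.quotEquivOfEq _ _ h1 ≪≫ₗ (f₂.domRestrict p).quotKerEquivRange)

/-! ### The curvilinear schemes -/

/-- The weight of an exponent vector. -/
def wt {n : ℕ} (w : Fin n → ℕ) (α : Fin n →₀ ℕ) : ℕ := ∑ i, w i * α i

/-- The ring homomorphism `xᵢ ↦ t^(wᵢ) u`. -/
noncomputable def phi {n : ℕ} (w : Fin n → ℕ) : (S K n) →ₐ[K] Polynomial (Polynomial K) :=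
  aeval (fun i => Polynomial.C (Polynomial.X ^ w i) * Polynomial.X)

theorem phi_monomial {n : ℕ} (w : Fin n → ℕ) (α : Fin n →₀ ℕ) (c : K) :
    phi w (monomial α c) =
      Polynomial.monomial α.degree (Polynomial.monomial (wt w α) c) := by
  rw [phi, aeval_monomial, Finsupp.prod_fintype _ _ (by simp)]
  have h1 : ∀ i, (Polynomial.C (Polynomial.X ^ w i) * Polynomial.X :
      Polynomial (Polynomial K)) ^ (α i) = Polynomial.C (Polynomial.X ^ (w i * α i)) *
        Polynomial.X ^ (α i) := by
    intro i
    rw [mul_pow, ← Polynomial.C_pow, ← pow_mul]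
  simp_rw [h1]
  rw [Finset.prod_mul_distrib, Finset.prod_pow_eq_pow_sum, ← map_prod,
    Finset.prod_pow_eq_pow_sum, ← Finsupp.degree_eq_sum, ← Polynomial.C_mul_X_pow_eq_monomial,
    ← Polynomial.C_mul_X_pow_eq_monomial, wt, ← mul_assoc]
  congr 1
  rw [map_mul]
  rfl

/-- The coefficient of `t^j u^k` in the image of `g`. -/
noncomputable def cf {n : ℕ} (w : Fin n → ℕ) (k j : ℕ) : (S K n) →ₗ[K] K where
  toFun g := ((phi w g).coeff k).coeff j
  map_add' := by simp
  map_smul' := by simp

theorem cf_apply {n : ℕ} (w : Fin n → ℕ) (k j : ℕ) (g : (S K n)) :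
    cf w k j g = ((phi w g).coeff k).coeff j := rfl

theorem cf_monomial {n : ℕ} (w : Fin n → ℕ) (k j : ℕ) (α : Fin n →₀ ℕ) (c : K) :
    cf w k j (monomial α c) = if α.degree = k ∧ wt w α = j then c else 0 := by
  rw [cf_apply, phi_monomial, Polynomial.coeff_monomial]
  by_cases h : α.degree = k
  · simp [h, Polynomial.coeff_monomial]
  · simp [h]

theorem cf_eq {n : ℕ} (w : Fin n → ℕ) (k j : ℕ) (g : (S K n)) :
    cf w k j g = ∑ α ∈ g.support, if α.degree = k ∧ wt w α = j then coeff α g else 0 := by
  conv_lhs => rw [← support_sum_monomial_coeff g]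
  rw [map_sum]
  exact Finset.sum_congr rfl fun α _ => cf_monomial w k j α _

theorem cf_homogeneousComponent {n : ℕ} (w : Fin n → ℕ) (k l j : ℕ) (g : (S K n)) :
    cf w k j (homogeneousComponent l g) = if k = l then cf w k j g else 0 := by
  induction g using MvPolynomial.induction_on' with
  | monomial α c =>
    by_cases hl : α.degree = l
    · rw [homogeneousComponent_of_mem (isHomogeneous_monomial c hl), if_pos rfl, cf_monomial]
      by_cases hk : k = l
      · simp [hk]
      · have : ¬ (α.degree = k) := fun h => hk (h.symm.trans hl)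
        simp [hk, this]
    · rw [homogeneousComponent_of_mem (isHomogeneous_monomial c rfl), if_neg (Ne.symm hl), map_zero,
        cf_monomial]
      by_cases hk : k = l
      · have : ¬ (α.degree = k) := fun h => hl (h.trans hk)
        simp [this]
      · simp [hk]
  | add p q hp hq =>
    rw [map_add, map_add, hp, hq]
    split_ifs <;> simp

variable (K) in
/-- The homogeneous ideal of the curvilinear scheme `t ↦ (t^(w₀) : ⋯ : t^(wₙ₋₁))`,
`t^m = 0`. -/
noncomputable def curv {n : ℕ} (w : Fin n → ℕ) (m : ℕ) : Ideal (S K n) :=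
  Ideal.comap (phi w) (Ideal.span {Polynomial.C (Polynomial.X ^ m)})

theorem mem_curv {n : ℕ} (w : Fin n → ℕ) (m : ℕ) (g : (S K n)) :
    g ∈ curv K w m ↔ ∀ k j, j < m → cf w k j g = 0 := by
  rw [curv, Ideal.mem_comap, Ideal.mem_span_singleton, Polynomial.C_dvd_iff_dvd_coeff]
  simp only [Polynomial.X_pow_dvd_iff, cf_apply]

theorem curv_isSaturatedHomogeneous {n : ℕ} (w : Fin (n + 1) → ℕ) (hw : w 0 = 0) (m : ℕ) :
    IsSaturatedHomogeneous (curv K w m) where
  homogeneous := by
    intro g hg k
    rw [mem_curv] at hg ⊢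
    intro l j hj
    rw [cf_homogeneousComponent]
    split_ifs
    · exact hg l j hj
    · rfl
  saturated := by
    intro g hg
    have h0 := hg 0
    rw [mem_curv] at h0 ⊢
    intro k j hj
    have h1 := h0 (k + 1) j hj
    rw [cf_apply, map_mul] at h1
    rw [cf_apply]
    have h2 : phi (K := K) w (X 0) = Polynomial.X := by
      rw [phi, aeval_X, hw, pow_zero, map_one, one_mul]
    rwa [h2, Polynomial.coeff_X_mul] at h1

/-- The vector of the first `m` coefficients. -/
noncomputable def cfv {n : ℕ} (w : Fin n → ℕ) (m k : ℕ) : (S K n) →ₗ[K] (Fin m → K) :=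
  LinearMap.pi fun j => cf w k j

theorem cf_of_isHomogeneous {n : ℕ} (w : Fin n → ℕ) {k l : ℕ} (j : ℕ) {g : (S K n)}
    (hg : g.IsHomogeneous l) (h : k ≠ l) : cf w k j g = 0 := by
  have := cf_homogeneousComponent w k l j g
  rwa [homogeneousComponent_of_mem hg, if_pos rfl, if_neg h] at this

theorem mem_curv_of_isHomogeneous {n : ℕ} (w : Fin n → ℕ) (m : ℕ) {k : ℕ} {g : (S K n)}
    (hg : g.IsHomogeneous k) : g ∈ curv K w m ↔ ∀ j < m, cf w k j g = 0 := by
  rw [mem_curv]
  refine ⟨fun h j hj => h k j hj, fun h l j hj => ?_⟩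
  by_cases hl : l = k
  · rw [hl]
    exact h j hj
  · exact cf_of_isHomogeneous w j hg hl

theorem hilb_curv {n : ℕ} (w : Fin n → ℕ) (m k : ℕ) :
    hilb (curv K w m) k = Module.finrank K ((homogeneousSubmodule (Fin n) K k).map (cfv w m k)) := by
  rw [hilb]
  apply finrank_map_eq
  intro g hg
  rw [mem_homogeneousSubmodule] at hg
  show Ideal.Quotient.mk (curv K w m) g = 0 ↔ _
  rw [Ideal.Quotient.eq_zero_iff_mem, mem_curv_of_isHomogeneous w m hg, funext_iff]
  simp [cfv, Fin.forall_iff]

/-- bound for the Hilbert function -/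
theorem hilb_curv_le {n : ℕ} (w : Fin n → ℕ) (m k : ℕ) (s : Finset (Fin m))
    (hs : ∀ α : Fin n →₀ ℕ, α.degree = k → ∀ j : Fin m, wt w α = j → j ∈ s) :
    hilb (curv K w m) k ≤ s.card := by
  classical
  rw [hilb_curv]
  have h1 : (homogeneousSubmodule (Fin n) K k).map (cfv w m k) ≤
      Submodule.span K ((s.image fun j => (Pi.single j 1 : Fin m → K) : Finset (Fin m → K)) :
        Set (Fin m → K)) := by
    rintro _ ⟨g, hg, rfl⟩
    have h2 : cfv w m k g = ∑ j : Fin m, (cf w k (j : ℕ) g) • (Pi.single j 1 : Fin m → K) := by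
      funext i
      simp [cfv, Pi.single_apply]
    rw [h2]
    apply Submodule.sum_mem
    intro j _
    by_cases hj : j ∈ s
    · apply Submodule.smul_mem
      apply Submodule.subset_span
      simp only [Finset.coe_image, Set.mem_image, Finset.mem_coe]
      exact ⟨j, hj, rfl⟩
    · have : cf w k j g = 0 := by
        rw [cf_eq]
        apply Finset.sum_eq_zero
        intro α _
        rw [if_neg]
        rintro ⟨ha, hb⟩
        exact hj (hs α ha j hb)
      rw [this, zero_smul]
      exact Submodule.zero_mem _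
  calc _ ≤ Module.finrank K (Submodule.span K ((s.image fun j => (Pi.single j 1 : Fin m → K) :
      Finset (Fin m → K)) : Set (Fin m → K))) := Submodule.finrank_mono h1
    _ ≤ (s.image fun j => (Pi.single j 1 : Fin m → K)).card := finrank_span_finset_le_card _
    _ ≤ s.card := Finset.card_image_le

theorem wt_add {n : ℕ} (w : Fin n → ℕ) (α β : Fin n →₀ ℕ) : wt w (α + β) = wt w α + wt w β := by
  simp [wt, mul_add, Finset.sum_add_distrib]

theorem wt_single {n : ℕ} (w : Fin n → ℕ) (i : Fin n) (k : ℕ) :
    wt w (Finsupp.single i k) = w i * k := by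
  rw [wt, Finset.sum_eq_single i]
  · simp
  · intro j _ hj
    rw [Finsupp.single_eq_of_ne hj]
    simp
  · simp

theorem hilb_curv_large {n : ℕ} (w : Fin (n + 2) → ℕ) (h0 : w 0 = 0) (h1 : w 1 = 1) (m k : ℕ)
    (hk : m ≤ k) : hilb (curv K w m) k = m := by
  rw [hilb_curv]
  have : (homogeneousSubmodule (Fin (n + 2)) K k).map (cfv w m k) = ⊤ := by
    rw [eq_top_iff]
    rintro v -
    have h2 : v = ∑ j, v j • (Pi.single j 1 : Fin m → K) := by
      funext i
      simp [Pi.single_apply]
    rw [h2]
    apply Submodule.sum_mem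
    intro j _
    apply Submodule.smul_mem
    have hd : (Finsupp.single (0 : Fin (n + 2)) (k - j) + Finsupp.single 1 (j : ℕ)).degree = k := by
      rw [map_add, Finsupp.degree_single, Finsupp.degree_single]
      have := j.2
      omega
    refine ⟨monomial (Finsupp.single 0 (k - j) + Finsupp.single 1 (j : ℕ)) 1, ?_, ?_⟩
    · rw [SetLike.mem_coe, mem_homogeneousSubmodule]
      exact isHomogeneous_monomial _ hd
    · funext i
      have hwt : wt w (Finsupp.single 0 (k - (j : ℕ)) + Finsupp.single 1 (j : ℕ)) = j := by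
        rw [wt_add, wt_single, wt_single, h0, h1]
        omega
      simp only [cfv, LinearMap.pi_apply]
      rw [cf_monomial, hd, hwt]
      rw [Pi.single_apply]
      simp [Fin.ext_iff, eq_comm]
  rw [this, finrank_top]
  simp

theorem degree_eq {n : ℕ} {I : Ideal (S K n)} {δ : ℕ} (h : ∀ᶠ i in atTop, hilb I i = δ) :
    degree I = δ := by
  have h1 : {δ' | ∀ᶠ i in atTop, hilb I i = δ'} = {δ} := by
    ext δ'
    simp only [Set.mem_ofPred_eq, Set.mem_singleton_iff]
    constructor
    · intro h'
      obtain ⟨i, hi⟩ := (h.and h').exists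
      exact hi.2.symm.trans hi.1
    · rintro rfl
      exact h
  rw [degree, h1, csInf_singleton]

theorem eventually_hilb_curv {n : ℕ} (w : Fin (n + 2) → ℕ) (h0 : w 0 = 0) (h1 : w 1 = 1) (m : ℕ) :
    ∀ᶠ i in atTop, hilb (curv K w m) i = m :=
  eventually_atTop.2 ⟨m, fun i hi => hilb_curv_large w h0 h1 m i hi⟩

theorem curv_isZeroDimScheme {n : ℕ} (w : Fin (n + 2) → ℕ) (h0 : w 0 = 0) (h1 : w 1 = 1) (m : ℕ)
    (hm : 0 < m) : IsZeroDimScheme (curv K w m) where
  toIsSaturatedHomogeneous := curv_isSaturatedHomogeneous w h0 m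
  zeroDim := ⟨m, hm, eventually_hilb_curv w h0 h1 m⟩

theorem le_reg_curv {n : ℕ} (w : Fin (n + 2) → ℕ) (h0 : w 0 = 0) (h1 : w 1 = 1) (m b : ℕ)
    (hb : ∀ k < b, hilb (curv K w m) k ≠ m) : b ≤ reg (curv K w m) := by
  rw [reg, degree_eq (eventually_hilb_curv w h0 h1 m)]
  refine le_csInf ⟨m, hilb_curv_large w h0 h1 m m le_rfl⟩ ?_
  intro k hk
  by_contra hlt
  exact hb k (not_le.1 hlt) hk

theorem act_monomial_eq_zero {n : ℕ} (g : (S K n)) (β : Fin n →₀ ℕ)
    (h : ∀ α ≤ β, coeff α g = 0) : act g (monomial β 1) = 0 := by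
  rw [act]
  apply Finset.sum_eq_zero
  intro α _
  by_cases hα : α ≤ β
  · rw [h α hα, zero_smul]
  · rw [partialPow_monomial_eq_zero 1 hα, smul_zero]

theorem cf_eq_coeff {n : ℕ} (w : Fin n → ℕ) (g : (S K n)) (α : Fin n →₀ ℕ)
    (h : ∀ α' : Fin n →₀ ℕ, α'.degree = α.degree → wt w α' = wt w α → α' = α) :
    cf w α.degree (wt w α) g = coeff α g := by
  classical
  rw [cf_eq, Finset.sum_eq_single α]
  · rw [if_pos ⟨rfl, rfl⟩]
  · intro α' _ hne
    rw [if_neg]
    rintro ⟨h1, h2⟩
    exact hne (h α' h1 h2)
  · intro h'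
    rw [if_pos ⟨rfl, rfl⟩]
    exact notMem_support_iff.1 h'

/-- The curvilinear scheme is irredundant for suitable monomials. -/
theorem irredundant_curv {n : ℕ} (w : Fin (n + 2) → ℕ) (h0 : w 0 = 0) (h1 : w 1 = 1)
    (hw : ∀ i, i ≠ 0 → 0 < w i) (m : ℕ) (σ β : Fin (n + 2) →₀ ℕ) (hσβ : σ ≤ β)
    (hσ : wt w σ + 1 = m)
    (hβ : ∀ α ≤ β, wt w α < m ∧ ∀ α' : Fin (n + 2) →₀ ℕ, α'.degree = α.degree →
      wt w α' = wt w α → α' = α) :
    Irredundant (curv K w m) (monomial β 1) := by
  constructor
  · intro g hg
    apply act_monomial_eq_zero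
    intro α hα
    rw [← cf_eq_coeff w g α (hβ α hα).2]
    rw [mem_curv] at hg
    exact hg _ _ (hβ α hα).1
  · intro J hJ hIJ hap
    refine le_antisymm ?_ hIJ
    intro g hg
    by_contra hgI
    -- first a form of degree `k` in `J` and not in the ideal of the curvilinear scheme
    rw [mem_curv] at hgI
    push Not at hgI
    obtain ⟨k, j, hj, hkj⟩ := hgI
    -- the order of vanishing
    classical
    have hex : ∃ j, cf w k j g ≠ 0 := ⟨j, hkj⟩
    set o := Nat.find hex with ho
    have ho1 : cf w k o g ≠ 0 := Nat.find_spec hex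
    have ho2 : ∀ i < o, cf w k i g = 0 := fun i hi => by
      by_contra h
      exact Nat.find_min hex hi h
    have ho3 : o ≤ j := Nat.find_min' hex hkj
    have hg' : homogeneousComponent k g ∈ J := hJ.homogeneous g hg k
    -- multiply by a monomial
    obtain ⟨e, he⟩ : ∃ e, e + o + 1 = m := ⟨m - 1 - o, by omega⟩
    set q : (S K (n + 2)) := X 0 ^ σ.degree * X 1 ^ e * homogeneousComponent k g with hq
    have hqJ : q ∈ J := J.mul_mem_left _ hg'
    have hphi0 : phi (K := K) w (X 0) = Polynomial.X := by
      rw [phi, aeval_X, h0, pow_zero, map_one, one_mul]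
    have hphi1 : phi (K := K) w (X 1) = Polynomial.C Polynomial.X * Polynomial.X := by
      rw [phi, aeval_X, h1, pow_one]
    have hqhom : q.IsHomogeneous (σ.degree + e + k) := by
      refine IsHomogeneous.mul (IsHomogeneous.mul ?_ ?_) (homogeneousComponent_isHomogeneous k g)
      · simpa using (isHomogeneous_X K (0 : Fin (n + 2))).pow σ.degree
      · simpa using (isHomogeneous_X K (1 : Fin (n + 2))).pow e
    have hcfq : ∀ i, cf w (σ.degree + e + k) i q =
        if e ≤ i then cf w k (i - e) g else 0 := by
      intro i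
      rw [cf_apply, hq, map_mul, map_mul, map_pow, map_pow, hphi0, hphi1, mul_pow, ← map_pow]
      have hre : (Polynomial.X ^ σ.degree * (Polynomial.C (Polynomial.X ^ e) * Polynomial.X ^ e) *
          (phi w (homogeneousComponent k g)) : Polynomial (Polynomial K)) =
          Polynomial.C (Polynomial.X ^ e) * ((phi w (homogeneousComponent k g)) *
            Polynomial.X ^ (σ.degree + e)) := by
        rw [pow_add]
        ring
      rw [hre, Polynomial.coeff_C_mul, add_comm (σ.degree + e) k, Polynomial.coeff_mul_X_pow,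
        Polynomial.coeff_X_pow_mul']
      have := cf_homogeneousComponent w k k (i - e) g
      rw [if_pos rfl, cf_apply] at this
      rw [this]
    -- the socle element is in `J` after multiplication by a power of `X 0`
    have hsoc : X 0 ^ (e + k) * monomial σ 1 ∈ J := by
      have hmem : q - C (cf w k o g) * (X 0 ^ (e + k) * monomial σ 1) ∈ curv K w m := by
        have hhom : (X 0 ^ (e + k) * monomial σ 1 : (S K (n + 2))).IsHomogeneous
            (σ.degree + e + k) := by
          have := ((isHomogeneous_X K (0 : Fin (n + 2))).pow (e + k)).mul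
            (isHomogeneous_monomial (1 : K) (rfl : σ.degree = σ.degree))
          rw [one_mul] at this
          convert this using 1
          ring
        have hhom2 : (C (cf w k o g) * (X 0 ^ (e + k) * monomial σ 1) : (S K (n + 2))).IsHomogeneous
            (σ.degree + e + k) := by
          have := (isHomogeneous_C (Fin (n + 2)) (cf w k o g)).mul hhom
          rwa [zero_add] at this
        rw [mem_curv_of_isHomogeneous w m (hqhom.sub hhom2)]
        intro i hi
        have e2 : X 0 ^ (e + k) * monomial σ 1 =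
            (monomial (Finsupp.single 0 (e + k) + σ) 1 : (S K (n + 2))) := by
          rw [X_pow_eq_monomial, monomial_mul, one_mul]
        have e3 : (Finsupp.single 0 (e + k) + σ).degree = σ.degree + e + k := by
          rw [map_add, Finsupp.degree_single]
          ring
        have e4 : wt w (Finsupp.single 0 (e + k) + σ) = wt w σ := by
          rw [wt_add, wt_single, h0]
          simp
        rw [map_sub, hcfq, e2, C_mul_monomial, cf_monomial, e3, e4, mul_one]
        by_cases hei : e ≤ i
        · rw [if_pos hei]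
          by_cases hio : i - e < o
          · rw [ho2 _ hio, if_neg (by omega), sub_zero]
          · have : i - e = o := by omega
            rw [this, if_pos ⟨rfl, by omega⟩, sub_self]
        · rw [if_neg hei, if_neg (by omega), sub_zero]
      have h3 : C (cf w k o g) * (X 0 ^ (e + k) * monomial σ 1) ∈ J := by
        have := J.sub_mem hqJ (hIJ hmem)
        rwa [sub_sub_cancel] at this
      have h4 := J.mul_mem_left (C (cf w k o g)⁻¹) h3
      rwa [← mul_assoc, ← C_mul, inv_mul_cancel₀ ho1, C_1, one_mul] at h4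
    -- the other variables kill the socle element
    have hkill : ∀ i : Fin (n + 2), i ≠ 0 → ∀ N : ℕ, X i * (X 0 ^ N * monomial σ 1) ∈ J := by
      intro i hi N
      apply hIJ
      rw [mem_curv]
      intro k' j' hj'
      have e2 : X i * (X 0 ^ N * monomial σ 1) =
          (monomial (Finsupp.single i 1 + (Finsupp.single 0 N + σ)) 1 : (S K (n + 2))) := by
        rw [X_pow_eq_monomial, monomial_mul, one_mul, X, monomial_mul, one_mul]
      rw [e2, cf_monomial, if_neg]
      rintro ⟨-, h6⟩
      rw [wt_add, wt_add, wt_single, wt_single, h0, mul_one, zero_mul, zero_add] at h6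
      have := hw i hi
      omega
    have hdown : ∀ N : ℕ, X 0 ^ N * monomial σ 1 ∈ J → monomial σ 1 ∈ J := by
      intro N
      induction N with
      | zero =>
        intro h
        simpa using h
      | succ N ih =>
        intro h
        apply ih
        apply hJ.saturated
        intro i
        by_cases hi : i = 0
        · rw [hi, ← mul_assoc, ← pow_succ']
          exact h
        · exact hkill i hi N
    have hmem := hdown _ hsoc
    have h7 := hap _ hmem
    rw [act_monomial] at h7
    exact partialPow_monomial_ne_zero one_ne_zero hσβ h7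

theorem le_M {n d : ℕ} {f : (S K n)} {I : Ideal (S K n)} (hf : f.IsHomogeneous d) (hf0 : f ≠ 0)
    (hI : IsZeroDimScheme I) (hirr : Irredundant I f) : (reg I : ℕ∞) ≤ M K n d :=
  le_iSup_of_le f (le_iSup_of_le I (le_iSup_of_le ⟨hf, hf0, hI, hirr⟩ le_rfl))

theorem monomial_le_M {n d : ℕ} (w : Fin (n + 2) → ℕ) (h0 : w 0 = 0) (h1 : w 1 = 1)
    (hw : ∀ i, i ≠ 0 → 0 < w i) (m : ℕ) (σ β : Fin (n + 2) →₀ ℕ) (hσβ : σ ≤ β)
    (hσ : wt w σ + 1 = m) (hd : β.degree = d)
    (hβ : ∀ α ≤ β, wt w α < m ∧ ∀ α' : Fin (n + 2) →₀ ℕ, α'.degree = α.degree →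
      wt w α' = wt w α → α' = α) : (reg (curv K w m) : ℕ∞) ≤ M K (n + 2) d := by
  refine le_M (f := monomial β 1) (isHomogeneous_monomial _ hd) ?_
    (curv_isZeroDimScheme w h0 h1 m (by omega)) (irredundant_curv w h0 h1 hw m σ β hσβ hσ hβ)
  rw [Ne, monomial_eq_zero]
  exact one_ne_zero

/-! ### Three or more variables -/

/-- the weights `0, 1, m - 1, m, m, …` -/
def wts (k m : ℕ) : Fin (k + 3) → ℕ := Fin.cons 0 (Fin.cons 1 (Fin.cons (m - 1) fun _ => m))

theorem wt_wts {k m : ℕ} (α : Fin (k + 3) →₀ ℕ) :
    wt (wts k m) α = α 1 + ((m - 1) * α 2 + m * ∑ i : Fin k, α i.succ.succ.succ) := by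
  rw [wt, Fin.sum_univ_succ, Fin.sum_univ_succ, Fin.sum_univ_succ, Finset.mul_sum]
  simp only [wts, Fin.cons_zero, Fin.cons_succ, zero_mul, one_mul, zero_add]
  rfl

theorem degree_three {k : ℕ} (α : Fin (k + 3) →₀ ℕ) :
    α.degree = α 0 + (α 1 + (α 2 + ∑ i : Fin k, α i.succ.succ.succ)) := by
  rw [Finsupp.degree_eq_sum, Fin.sum_univ_succ, Fin.sum_univ_succ, Fin.sum_univ_succ]
  rfl

theorem M_three (k d : ℕ) (hd : 1 ≤ d) : M K (k + 3) d = ⊤ := by
  have key : ∀ N : ℕ, (N : ℕ∞) ≤ M K (k + 3) d := by
    intro N
    obtain ⟨m, hm⟩ : ∃ m, m = N + d + 4 := ⟨_, rfl⟩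
    have v2 : ((2 : Fin (k + 3)) : ℕ) = 2 := by
      show 2 % (k + 3) = 2
      exact Nat.mod_eq_of_lt (by omega)
    have h0 : wts k m 0 = 0 := rfl
    have h1 : wts k m 1 = 1 := rfl
    have h2 : wts k m 2 = m - 1 := rfl
    have hw : ∀ i, i ≠ 0 → 0 < wts k m i := by
      intro i hi
      refine Fin.cases (fun h => absurd rfl h) (fun i _ => ?_) i hi
      refine Fin.cases ?_ (fun i => ?_) i
      · exact Nat.one_pos
      · refine Fin.cases ?_ (fun i => ?_) i
        · show 0 < m - 1
          omega
        · show 0 < m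
          omega
    have hM : (reg (curv K (wts k m) m) : ℕ∞) ≤ M K (k + 3) d := by
      refine monomial_le_M (n := k + 1) (wts k m) h0 h1 hw m (Finsupp.single 2 1)
        (Finsupp.single 0 (d - 1) + Finsupp.single 2 1) ?_ ?_ ?_ ?_
      · exact le_add_of_nonneg_left zero_le
      · rw [wt_single, h2]
        omega
      · rw [map_add, Finsupp.degree_single, Finsupp.degree_single]
        omega
      · intro α hα
        have a0 : α 0 ≤ d - 1 := by
          have := hα 0
          have h : (2 : Fin (k + 3)) ≠ 0 := by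
            intro h
            have := congrArg Fin.val h
            rw [v2] at this
            exact absurd this (by simp)
          simpa [Finsupp.single_eq_of_ne' h] using this
        have a2 : α 2 ≤ 1 := by
          have := hα 2
          have h : (0 : Fin (k + 3)) ≠ 2 := by
            intro h
            have := congrArg Fin.val h
            rw [v2] at this
            exact absurd this (by simp)
          simpa [Finsupp.single_eq_of_ne' h] using this
        have a1 : α 1 = 0 := by
          have := hα 1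
          have h : (0 : Fin (k + 3)) ≠ 1 := by simp
          have h' : (2 : Fin (k + 3)) ≠ 1 := by
            intro h
            have := congrArg Fin.val h
            rw [v2] at this
            exact absurd this (by simp)
          simpa [Finsupp.single_eq_of_ne' h, Finsupp.single_eq_of_ne' h'] using this
        have a3 : ∀ i : Fin k, α i.succ.succ.succ = 0 := by
          intro i
          have := hα i.succ.succ.succ
          have h : (0 : Fin (k + 3)) ≠ i.succ.succ.succ := by simp [Fin.ext_iff]
          have h' : (2 : Fin (k + 3)) ≠ i.succ.succ.succ := by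
            intro h
            have := congrArg Fin.val h
            rw [v2, Fin.val_succ, Fin.val_succ, Fin.val_succ] at this
            omega
          simpa [Finsupp.single_eq_of_ne' h, Finsupp.single_eq_of_ne' h'] using this
        have a4 : ∑ i : Fin k, α i.succ.succ.succ = 0 := Finset.sum_eq_zero fun i _ => a3 i
        constructor
        · rw [wt_wts, a1, a4]
          rcases Nat.le_one_iff_eq_zero_or_eq_one.1 a2 with h | h <;> rw [h] <;> omega
        · intro α' hdeg hwt
          rw [wt_wts, wt_wts, a1, a4] at hwt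
          rw [degree_three, degree_three, a1, a4] at hdeg
          set r := ∑ i : Fin k, α' i.succ.succ.succ with hr
          have hr0 : r = 0 := by
            by_contra hne
            have : m * 1 ≤ m * r := Nat.mul_le_mul_left m (Nat.one_le_iff_ne_zero.2 hne)
            rcases Nat.le_one_iff_eq_zero_or_eq_one.1 a2 with h | h <;> rw [h] at hwt <;> omega
          have h2' : α' 2 = α 2 := by
            rw [hr0] at hwt hdeg
            rcases Nat.le_one_iff_eq_zero_or_eq_one.1 a2 with h | h
            · rw [h] at hwt ⊢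
              by_contra hne
              have : (m - 1) * 1 ≤ (m - 1) * α' 2 :=
                Nat.mul_le_mul_left _ (Nat.one_le_iff_ne_zero.2 hne)
              omega
            · rw [h] at hwt ⊢ hdeg
              by_contra hne
              rcases Nat.lt_or_ge (α' 2) 1 with h3 | h3
              · have h4 : α' 2 = 0 := by omega
                rw [h4] at hwt hdeg
                omega
              · have : (m - 1) * 2 ≤ (m - 1) * α' 2 := Nat.mul_le_mul_left _ (by omega)
                omega
          have h1' : α' 1 = α 1 := by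
            rw [hr0, h2'] at hwt
            omega
          have h0' : α' 0 = α 0 := by
            rw [hr0, h2', h1'] at hdeg
            omega
          have h3' : ∀ i : Fin k, α' i.succ.succ.succ = 0 := by
            intro i
            exact (Finset.sum_eq_zero_iff.1 hr0) i (Finset.mem_univ i)
          ext i
          refine Fin.cases h0' (fun i => ?_) i
          refine Fin.cases h1' (fun i => ?_) i
          refine Fin.cases h2' (fun i => ?_) i
          rw [h3', a3]
    refine le_trans ?_ hM
    rw [Nat.cast_le]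
    refine le_reg_curv (wts k m) h0 h1 m N ?_
    intro l hl
    apply ne_of_lt
    have hb := hilb_curv_le (K := K) (wts k m) m l
      (Finset.univ.filter fun j : Fin m => (j : ℕ) ≤ l ∨ (j : ℕ) = m - 1) (by
        intro α hα j hj
        rw [Finset.mem_filter]
        refine ⟨Finset.mem_univ _, ?_⟩
        rw [wt_wts] at hj
        rw [degree_three] at hα
        have hjm := j.2
        set r := ∑ i : Fin k, α i.succ.succ.succ with hr
        have hr0 : r = 0 := by
          by_contra hne
          have : m * 1 ≤ m * r := Nat.mul_le_mul_left m (Nat.one_le_iff_ne_zero.2 hne)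
          omega
        rw [hr0] at hj
        rcases Nat.lt_or_ge (α 2) 1 with h3 | h3
        · have h4 : α 2 = 0 := by omega
          rw [h4] at hj
          omega
        · have : (m - 1) * 1 ≤ (m - 1) * α 2 := Nat.mul_le_mul_left _ h3
          omega)
    refine lt_of_le_of_lt hb ?_
    have hc : (Finset.univ.filter fun j : Fin m => (j : ℕ) ≤ l ∨ (j : ℕ) = m - 1).card ≤
        (insert (m - 1) (Finset.range (l + 1))).card := by
      apply Finset.card_le_card_of_injOn (fun j : Fin m => (j : ℕ))
      · intro j hj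
        simp only [Finset.coe_filter, Finset.mem_univ, true_and, Set.mem_ofPred_eq] at hj
        simp only [Finset.coe_insert, Finset.coe_range, Set.mem_insert_iff, Set.mem_Iio]
        omega
      · intro a _ b _ h
        exact Fin.ext h
    have hc2 := Finset.card_insert_le (m - 1) (Finset.range (l + 1))
    rw [Finset.card_range] at hc2
    omega
  rw [ENat.eq_top_iff_forall_ge]
  exact key

/-! ### Two variables: the lower bound -/

theorem le_M_two (d : ℕ) : (d : ℕ∞) ≤ M K 2 d := by
  have hwt : ∀ α : Fin 2 →₀ ℕ, wt ![0, 1] α = α 1 := by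
    intro α
    simp [wt]
  have hdeg : ∀ α : Fin 2 →₀ ℕ, α.degree = α 0 + α 1 := by
    intro α
    rw [Finsupp.degree_eq_sum, Fin.sum_univ_two]
  have hM : (reg (curv K (![0, 1] : Fin 2 → ℕ) (d + 1)) : ℕ∞) ≤ M K 2 d := by
    refine monomial_le_M (n := 0) ![0, 1] rfl rfl ?_ (d + 1) (Finsupp.single 1 d)
      (Finsupp.single 1 d) le_rfl ?_ ?_ ?_
    · intro i hi
      fin_cases i
      · exact absurd rfl hi
      · simp
    · rw [wt_single]
      simp
    · rw [Finsupp.degree_single]
    · intro α hα
      have a0 : α 0 = 0 := by simpa using hα 0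
      have a1 : α 1 ≤ d := by simpa using hα 1
      refine ⟨by rw [hwt]; omega, ?_⟩
      intro α' h1 h2
      rw [hwt, hwt] at h2
      rw [hdeg, hdeg] at h1
      ext i
      fin_cases i
      · show α' 0 = α 0
        omega
      · exact h2
  refine le_trans ?_ hM
  rw [Nat.cast_le]
  refine le_reg_curv (n := 0) ![0, 1] rfl rfl (d + 1) d ?_
  intro l hl
  apply ne_of_lt
  have hb := hilb_curv_le (K := K) (![0, 1] : Fin 2 → ℕ) (d + 1) l
    (Finset.univ.filter fun j : Fin (d + 1) => (j : ℕ) ≤ l) (by
      intro α hα j hj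
      rw [Finset.mem_filter]
      refine ⟨Finset.mem_univ _, ?_⟩
      rw [hwt] at hj
      rw [hdeg] at hα
      omega)
  refine lt_of_le_of_lt hb ?_
  have hc : (Finset.univ.filter fun j : Fin (d + 1) => (j : ℕ) ≤ l).card ≤
      (Finset.range (l + 1)).card := by
    apply Finset.card_le_card_of_injOn (fun j : Fin (d + 1) => (j : ℕ))
    · intro j hj
      simp only [Finset.coe_filter, Finset.mem_univ, true_and, Set.mem_ofPred_eq] at hj
      simp only [Finset.coe_range, Set.mem_Iio]
      omega
    · intro a _ b _ h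
      exact Fin.ext h
  rw [Finset.card_range] at hc
  omega

/-! ### One variable -/

theorem submodule_one (k : ℕ) :
    homogeneousSubmodule (Fin 1) K k = Submodule.span K {(X 0 ^ k : (S K 1))} := by
  apply le_antisymm
  · intro g hg
    rw [mem_homogeneousSubmodule] at hg
    rw [← support_sum_monomial_coeff g]
    apply Submodule.sum_mem
    intro α hα
    have h1 : α.degree = k := by
      by_contra h
      exact (mem_support_iff.1 hα) (hg.coeff_eq_zero h)
    have h2 : α = Finsupp.single 0 k := by
      refine Finsupp.ext fun i => ?_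
      rw [Subsingleton.elim i 0, ← h1, Finsupp.degree_eq_sum]
      simp
    rw [h2, Submodule.mem_span_singleton]
    refine ⟨coeff (Finsupp.single 0 k) g, ?_⟩
    rw [X_pow_eq_monomial, smul_monomial, smul_eq_mul, mul_one]
  · rw [Submodule.span_singleton_le_iff_mem, mem_homogeneousSubmodule]
    exact isHomogeneous_X_pow _ _

theorem hilb_top {n : ℕ} (k : ℕ) : hilb (⊤ : Ideal (S K n)) k = 0 := by
  rw [hilb]
  have : Submodule.map (Ideal.Quotient.mkₐ K (⊤ : Ideal (S K n))).toLinearMap
      (homogeneousSubmodule (Fin n) K k) = ⊥ := by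
    rw [eq_bot_iff]
    rintro _ ⟨g, _, rfl⟩
    rw [Submodule.mem_bot]
    exact Ideal.Quotient.eq_zero_iff_mem.2 Submodule.mem_top
  rw [this, finrank_bot]

theorem ne_top_of_isZeroDimScheme {n : ℕ} {I : Ideal (S K n)} (hI : IsZeroDimScheme I) : I ≠ ⊤ := by
  rintro rfl
  obtain ⟨δ, hδ, h⟩ := hI.zeroDim
  obtain ⟨i, hi⟩ := h.exists
  rw [hilb_top] at hi
  omega

theorem hilb_one {I : Ideal (S K 1)} (hI : IsZeroDimScheme I) (k : ℕ) : hilb I k = 1 := by
  have h1 : ∀ k, (X 0 ^ k : (S K 1)) ∉ I := by
    intro k
    induction k with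
    | zero =>
      intro h
      rw [pow_zero] at h
      exact ne_top_of_isZeroDimScheme hI ((Ideal.eq_top_iff_one I).2 h)
    | succ k ih =>
      intro h
      apply ih
      apply hI.saturated
      intro i
      rw [Subsingleton.elim i 0, ← pow_succ']
      exact h
  rw [hilb, submodule_one, Submodule.map_span, Set.image_singleton]
  apply finrank_span_singleton
  intro h
  exact h1 k (Ideal.Quotient.eq_zero_iff_mem.1 h)

theorem M_one (d : ℕ) : M K 1 d = 0 := by
  rw [M, ← nonpos_iff_eq_zero]
  refine iSup_le fun f => iSup_le fun I => iSup_le fun h => ?_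
  have : reg I = 0 := by
    rw [reg, degree_eq (δ := 1) (Eventually.of_forall (hilb_one h.2.2.1))]
    have : (0 : ℕ) ∈ {i | hilb I i = 1} := hilb_one h.2.2.1 0
    exact Nat.sInf_eq_zero.2 (Or.inl this)
  rw [this]
  rfl

/-! ### Two variables: the upper bound -/

theorem homogeneousComponent_mul {n : ℕ} {a : ℕ} {l : (S K n)} (hl : l.IsHomogeneous a) (k : ℕ)
    (q : (S K n)) : homogeneousComponent (a + k) (l * q) = l * homogeneousComponent k q := by
  conv_lhs => rw [← sum_homogeneousComponent q, Finset.mul_sum, map_sum]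
  have h1 : ∀ i, homogeneousComponent (a + k) (l * homogeneousComponent i q) =
      if i = k then l * homogeneousComponent k q else 0 := by
    intro i
    rw [homogeneousComponent_of_mem (hl.mul (homogeneousComponent_isHomogeneous i q))]
    by_cases h : i = k
    · rw [if_pos (by rw [h]), if_pos h, h]
    · rw [if_neg (by omega), if_neg h]
  simp_rw [h1]
  rw [Finset.sum_ite_eq']
  split_ifs with h
  · rfl
  · rw [Finset.mem_range] at h
    rw [homogeneousComponent_eq_zero _ _ (by omega), mul_zero]

/-- Modulo the linear form vanishing at `r`, every form `h` of degree `k` is `h(r) u ^ k`. -/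
theorem exists_linear (r : Fin 2 → K) (hr : r ≠ 0) :
    ∃ l u : (S K 2), l.IsHomogeneous 1 ∧ l ≠ 0 ∧ u.IsHomogeneous 1 ∧
      ∀ (k : ℕ) (h : (S K 2)), h.IsHomogeneous k → l ∣ h - C (eval r h) * u ^ k := by
  obtain ⟨p, q, hpq⟩ : ∃ p q : K, p * r 0 + q * r 1 = 1 := by
    by_cases h0 : r 0 = 0
    · have h1 : r 1 ≠ 0 := by
        intro h1
        apply hr
        funext i
        fin_cases i
        · exact h0
        · exact h1
      exact ⟨0, (r 1)⁻¹, by rw [zero_mul, zero_add, inv_mul_cancel₀ h1]⟩
    · exact ⟨(r 0)⁻¹, 0, by rw [zero_mul, add_zero, inv_mul_cancel₀ h0]⟩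
  have hX : ∀ (c : K) (i : Fin 2), (C c * X i : (S K 2)).IsHomogeneous 1 := fun c i =>
    isHomogeneous_C_mul_X c i
  set l : (S K 2) := C (r 1) * X 0 - C (r 0) * X 1 with hl
  set u : (S K 2) := C p * X 0 + C q * X 1 with hu
  have hpq' : (C p * C (r 0) + C q * C (r 1) : (S K 2)) = 1 := by
    rw [← C_mul, ← C_mul, ← C_add, hpq, C_1]
  have hl0 : l ≠ 0 := by
    intro h
    have h2 : eval ![q, -p] l = 0 := by rw [h, map_zero]
    rw [hl] at h2
    simp only [map_sub, map_mul, eval_C, eval_X, Matrix.cons_val_zero, Matrix.cons_val_one,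
      Matrix.cons_val_fin_one] at h2
    have h3 : p * r 0 + q * r 1 = 0 := by linear_combination h2
    rw [hpq] at h3
    exact one_ne_zero h3
  refine ⟨l, u, (hX _ _).sub (hX _ _), hl0, (hX _ _).add (hX _ _), ?_⟩
  -- work modulo `l`
  have hXi : ∀ i, (Ideal.Quotient.mk (Ideal.span {l})) (X i) =
      (Ideal.Quotient.mk (Ideal.span {l})) (C (r i) * u) := by
    intro i
    rw [Ideal.Quotient.eq, Ideal.mem_span_singleton]
    fin_cases i
    · refine ⟨C q, ?_⟩
      show X 0 - C (r 0) * u = l * C q
      rw [hl, hu]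
      linear_combination (-(X 0 : (S K 2))) * hpq'
    · refine ⟨-C p, ?_⟩
      show X 1 - C (r 1) * u = l * -C p
      rw [hl, hu]
      linear_combination (-(X 1 : (S K 2))) * hpq'
  intro k h hh
  rw [← Ideal.mem_span_singleton, ← Ideal.Quotient.eq]
  conv_lhs => rw [← support_sum_monomial_coeff h]
  conv_rhs => rw [eval_eq', map_sum, Finset.sum_mul]
  rw [map_sum, map_sum]
  refine Finset.sum_congr rfl fun α hα => ?_
  have hd : α.degree = k := by
    by_contra hne
    exact (mem_support_iff.1 hα) (hh.coeff_eq_zero hne)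
  rw [monomial_eq, Finsupp.prod_fintype _ _ (by simp), map_mul, map_prod]
  simp_rw [map_pow, hXi]
  rw [C_mul, map_prod, map_mul, map_mul, map_prod, mul_assoc]
  congr 1
  simp_rw [map_pow, map_mul, mul_pow]
  rw [Finset.prod_mul_distrib, Finset.prod_pow_eq_pow_sum, ← Finsupp.degree_eq_sum, hd]

/-- A binary form of positive degree has a nontrivial zero. -/
theorem exists_root [IsAlgClosed K] {e : ℕ} (he : 1 ≤ e) {g : (S K 2)} (hg : g.IsHomogeneous e) :
    ∃ r : Fin 2 → K, r ≠ 0 ∧ eval r g = 0 := by
  set p : Polynomial K := aeval ![Polynomial.X, 1] g with hp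
  have hev : ∀ c, p.eval c = eval ![c, 1] g := by
    intro c
    rw [hp, ← Polynomial.coe_evalRingHom]
    have : (Polynomial.evalRingHom c).comp
        ((aeval ![Polynomial.X, 1] : (S K 2) →ₐ[K] Polynomial K) : (S K 2) →+* Polynomial K) =
        (eval ![c, 1] : (S K 2) →+* K) := by
      ext i
      · simp
      · fin_cases i <;> simp
    exact DFunLike.congr_fun this g
  by_cases hdeg : p.degree = 0
  · refine ⟨![1, 0], ?_, ?_⟩
    · intro h
      exact one_ne_zero (congrFun h 0)
    · have h1 : p.coeff e = 0 := by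
        apply Polynomial.coeff_eq_zero_of_degree_lt
        rw [hdeg]
        exact_mod_cast he
      refine Eq.trans ?_ h1
      rw [hp, eval_eq', aeval_def, eval₂_eq', Polynomial.finsetSum_coeff]
      refine Finset.sum_congr rfl fun α hα => ?_
      have hd : α.degree = e := by
        by_contra hne
        exact (mem_support_iff.1 hα) (hg.coeff_eq_zero hne)
      rw [Finsupp.degree_eq_sum, Fin.sum_univ_two] at hd
      rw [Fin.prod_univ_two, Fin.prod_univ_two]
      simp only [Matrix.cons_val_zero, Matrix.cons_val_one, Matrix.cons_val_fin_one, one_pow,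
        mul_one, one_mul]
      rw [Polynomial.algebraMap_eq, Polynomial.coeff_C_mul, Polynomial.coeff_X_pow]
      by_cases h1 : α 1 = 0
      · rw [h1, pow_zero, if_pos (by omega)]
      · rw [zero_pow h1, if_neg (by omega)]
  · obtain ⟨c, hc⟩ := IsAlgClosed.exists_root p hdeg
    refine ⟨![c, 1], ?_, ?_⟩
    · intro h
      exact one_ne_zero (congrFun h 1)
    · rw [← hev]
      exact hc

/-- there is a nonzero form in the ideal of a zero-dimensional scheme -/
theorem exists_form {I : Ideal (S K 2)} (hI : IsZeroDimScheme I) :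
    ∃ k, ∃ g ∈ I, g.IsHomogeneous k ∧ g ≠ 0 := by
  by_contra hno
  push Not at hno
  obtain ⟨δ, hδ, h⟩ := hI.zeroDim
  obtain ⟨i, hi1, hi2⟩ := (h.and (eventually_ge_atTop (δ + 1))).exists
  have h1 : hilb I i = Module.finrank K ((homogeneousSubmodule (Fin 2) K i).map
      (LinearMap.id : (S K 2) →ₗ[K] (S K 2))) := by
    rw [hilb]
    apply finrank_map_eq
    intro g hg
    constructor
    · intro h0
      exact hno i g (Ideal.Quotient.eq_zero_iff_mem.1 h0) hg
    · intro h0
      rw [LinearMap.id_apply] at h0
      rw [h0, map_zero]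
  rw [Submodule.map_id] at h1
  have hfg : Module.Finite K (homogeneousSubmodule (Fin 2) K i) :=
    Module.Finite.iff_fg.2 (homogeneousSubmodule_fg (Fin 2) K i)
  obtain ⟨w, hw0, hw1⟩ : ∃ w : Fin 2 → ℕ, w 0 = 0 ∧ w 1 = 1 := ⟨![0, 1], rfl, rfl⟩
  have h2 := Submodule.finrank_map_le (cfv w (δ + 1) i) (homogeneousSubmodule (Fin 2) K i)
  have h3 : hilb (curv K w (δ + 1)) i = δ + 1 :=
    hilb_curv_large (n := 0) w hw0 hw1 (δ + 1) i hi2
  rw [hilb_curv] at h3
  omega

/-- the Hilbert function is constant from the degree of an element of the ideal on -/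
theorem hilb_succ {I : Ideal (S K 2)} (hI : IsSaturatedHomogeneous I) (hItop : I ≠ ⊤) {e : ℕ} {g : (S K 2)} (hgI : g ∈ I)
    (hg : g.IsHomogeneous e) (hg0 : g ≠ 0) {k : ℕ} (hk : e ≤ k + 1) :
    hilb I (k + 1) = hilb I k := by
  obtain ⟨r, hr⟩ : ∃ r : Fin 2 → K, eval r g ≠ 0 := by
    by_contra hno
    push Not at hno
    exact hg0 (hg.eq_zero_of_forall_eval_eq_zero hno)
  obtain ⟨l, u, hl, hl0, hu, hlu, hr'⟩ : ∃ l u : (S K 2), l.IsHomogeneous 1 ∧ l ≠ 0 ∧
      u.IsHomogeneous 1 ∧ (∀ (k : ℕ) (h : (S K 2)), h.IsHomogeneous k →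
        l ∣ h - C (eval r h) * u ^ k) ∧ l ∣ g - C (eval r g) * u ^ e := by
    by_cases hr0 : r = 0
    · -- then `e = 0`; any point can be used
      obtain ⟨l, u, h1, h2, h3, h4⟩ := exists_linear (1 : Fin 2 → K) one_ne_zero
      exfalso
      have he : e = 0 := by
        by_contra he
        apply hr
        rw [hr0, eval_eq']
        apply Finset.sum_eq_zero
        intro α hα
        have hd : α.degree = e := by
          by_contra hne
          exact (mem_support_iff.1 hα) (hg.coeff_eq_zero hne)
        rw [Finsupp.degree_eq_sum, Fin.sum_univ_two] at hd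
        rw [Fin.prod_univ_two]
        by_cases h0 : α 0 = 0
        · have : α 1 ≠ 0 := by omega
          simp [this]
        · simp [h0]
      rw [he] at hg
      have hc := (totalDegree_zero_iff_isHomogeneous _).2 hg
      rw [totalDegree_eq_zero_iff_eq_C] at hc
      have h0 : coeff 0 g ≠ 0 := by
        intro h0
        rw [h0, C_0] at hc
        exact hg0 hc
      apply hItop
      rw [Ideal.eq_top_iff_one]
      have h5 := I.mul_mem_left (C (coeff 0 g)⁻¹) hgI
      rw [hc, coeff_C, if_pos rfl, ← C_mul, inv_mul_cancel₀ h0, C_1] at h5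
      exact h5
    · obtain ⟨l, u, h1, h2, h3, h4⟩ := exists_linear r hr0
      exact ⟨l, u, h1, h2, h3, h4, h4 e g hg⟩
  -- `l` is a nonzerodivisor modulo `I`
  have hinj : ∀ q : (S K 2), l * q ∈ I → q ∈ I := by
    intro q hq
    have hue : u ^ e * q ∈ I := by
      obtain ⟨t, ht⟩ := hr'
      have h1 : C (eval r g) * (u ^ e * q) = q * g - t * (l * q) := by
        linear_combination (-q) * ht
      have h2 : C (eval r g) * (u ^ e * q) ∈ I := by
        rw [h1]
        exact I.sub_mem (I.mul_mem_left _ hgI) (I.mul_mem_left _ hq)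
      have h3 := I.mul_mem_left (C (eval r g)⁻¹) h2
      rwa [← mul_assoc, ← C_mul, inv_mul_cancel₀ hr, C_1, one_mul] at h3
    have hdown : ∀ j : ℕ, u ^ j * q ∈ I → q ∈ I := by
      intro j
      induction j with
      | zero =>
        intro h
        rwa [pow_zero, one_mul] at h
      | succ j ih =>
        intro h
        apply ih
        apply hI.saturated
        intro i
        obtain ⟨t, ht⟩ := hlu 1 (X i) (isHomogeneous_X K i)
        rw [eval_X, pow_one] at ht
        have h1 : X i * (u ^ j * q) = C (r i) * (u ^ (j + 1) * q) + (t * u ^ j) * (l * q) := by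
          linear_combination (u ^ j * q) * ht
        rw [h1]
        exact I.add_mem (I.mul_mem_left _ h) (I.mul_mem_left _ hq)
    exact hdown e hue
  -- surjectivity
  have hmap : (homogeneousSubmodule (Fin 2) K (k + 1)).map (Ideal.Quotient.mkₐ K I).toLinearMap =
      (homogeneousSubmodule (Fin 2) K k).map
        ((Ideal.Quotient.mkₐ K I).toLinearMap ∘ₗ LinearMap.mulLeft K l) := by
    apply le_antisymm
    · rintro _ ⟨h, hh, rfl⟩
      rw [SetLike.mem_coe, mem_homogeneousSubmodule] at hh
      obtain ⟨t, ht⟩ := hlu (k + 1) h hh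
      obtain ⟨t', ht'⟩ := hr'
      set c : K := eval r h / eval r g with hc
      have hcg : C c * C (eval r g) = (C (eval r h) : (S K 2)) := by
        rw [← C_mul, hc, div_mul_cancel₀ _ hr]
      have hpow : (u ^ (k + 1 - e) * u ^ e : (S K 2)) = u ^ (k + 1) := by
        rw [← pow_add]
        congr 1
        omega
      set t'' : (S K 2) := t - C c * u ^ (k + 1 - e) * t' with ht''
      have h1 : l * t'' = h - C c * u ^ (k + 1 - e) * g := by
        rw [ht'']
        linear_combination (-1) * ht + (C c * u ^ (k + 1 - e)) * ht' +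
          (C c * C (eval r g)) * hpow + u ^ (k + 1) * hcg
      have h2 : l * homogeneousComponent k t'' = h - C c * u ^ (k + 1 - e) * g := by
        have h3 := homogeneousComponent_mul hl k t''
        rw [h1] at h3
        have h4 : (h - C c * u ^ (k + 1 - e) * g).IsHomogeneous (1 + k) := by
          rw [add_comm 1 k]
          refine hh.sub ?_
          have h5 := ((hu.pow (k + 1 - e)).C_mul c).mul hg
          have h6 : 1 * (k + 1 - e) + e = k + 1 := by omega
          rwa [h6] at h5
        rw [homogeneousComponent_of_mem h4, if_pos rfl] at h3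
        exact h3.symm
      refine ⟨homogeneousComponent k t'', homogeneousComponent_isHomogeneous _ _, ?_⟩
      show Ideal.Quotient.mk I (l * homogeneousComponent k t'') = Ideal.Quotient.mk I h
      rw [h2, Ideal.Quotient.eq, sub_sub_cancel_left]
      exact I.neg_mem (I.mul_mem_left _ hgI)
    · rintro _ ⟨h, hh, rfl⟩
      rw [SetLike.mem_coe, mem_homogeneousSubmodule] at hh
      refine ⟨l * h, ?_, rfl⟩
      rw [SetLike.mem_coe, mem_homogeneousSubmodule, add_comm]
      exact hl.mul hh
  rw [hilb, hilb, hmap]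
  apply finrank_map_eq
  intro q _
  show Ideal.Quotient.mk I (l * q) = 0 ↔ Ideal.Quotient.mk I q = 0
  rw [Ideal.Quotient.eq_zero_iff_mem, Ideal.Quotient.eq_zero_iff_mem]
  exact ⟨hinj q, fun h => I.mul_mem_left _ h⟩

theorem partialPow_eq_zero {n d : ℕ} {f : (S K n)} (hf : f.IsHomogeneous d) {α : Fin n →₀ ℕ}
    (hα : d < α.degree) : partialPow α f = 0 := by
  rw [← support_sum_monomial_coeff f, map_sum]
  apply Finset.sum_eq_zero
  intro β hβ
  apply partialPow_monomial_eq_zero
  intro hle
  have hd : β.degree = d := by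
    by_contra hne
    exact (mem_support_iff.1 hβ) (hf.coeff_eq_zero hne)
  have h1 : α.degree ≤ β.degree := by
    rw [Finsupp.degree_eq_sum, Finsupp.degree_eq_sum]
    exact Finset.sum_le_sum fun i _ => hle i
  omega

theorem reg_le_two [IsAlgClosed K] {d : ℕ} {f : (S K 2)} {I : Ideal (S K 2)} (hf : f.IsHomogeneous d)
    (hI : IsZeroDimScheme I) (hirr : Irredundant I f) : reg I ≤ d := by
  classical
  have hex := exists_form hI
  set e := Nat.find hex with he
  obtain ⟨g, hgI, hg, hg0⟩ := Nat.find_spec hex
  rw [← he] at hg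
  have hmin : ∀ k < e, ∀ g ∈ I, g.IsHomogeneous k → g = 0 := by
    intro k hk g hgI hg
    by_contra hne
    exact Nat.find_min hex hk ⟨g, hgI, hg, hne⟩
  -- the minimal degree is at most `d + 1`
  have hed : e ≤ d + 1 := by
    by_contra hlt
    push Not at hlt
    obtain ⟨r, hr0, hr⟩ := exists_root (by omega : 1 ≤ e) hg
    obtain ⟨l, u, hl, hl0, hu, hlu⟩ := exists_linear r hr0
    obtain ⟨g₁, hg₁⟩ := hlu e g hg
    rw [hr, C_0, zero_mul, sub_zero] at hg₁
    set J : Ideal (S K 2) := Submodule.comap (LinearMap.mulLeft (S K 2) l) I with hJ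
    have hmem : ∀ q, q ∈ J ↔ l * q ∈ I := fun q => Iff.rfl
    have hJs : IsSaturatedHomogeneous J := by
      refine ⟨fun q hq k => ?_, fun q hq => ?_⟩
      · rw [hmem] at hq ⊢
        rw [← homogeneousComponent_mul hl]
        exact hI.homogeneous _ hq _
      · rw [hmem]
        apply hI.saturated
        intro i
        have := hq i
        rw [hmem] at this
        rwa [mul_left_comm] at this
    have hIJ : I ≤ J := fun q hq => (hmem q).2 (I.mul_mem_left _ hq)
    have hJap : Apolar J f := by
      intro q hq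
      rw [act]
      apply Finset.sum_eq_zero
      intro α hα
      by_cases hd : d < α.degree
      · rw [partialPow_eq_zero hf hd, smul_zero]
      · have h1 := (hmem _).1 (hJs.homogeneous q hq α.degree)
        have h2 := hmin (1 + α.degree) (by omega) _ h1
          (hl.mul (homogeneousComponent_isHomogeneous _ _))
        have h3 : homogeneousComponent α.degree q = 0 := (mul_eq_zero.1 h2).resolve_left hl0
        have h4 : coeff α q = 0 := by
          have := coeff_homogeneousComponent α.degree q α
          rw [if_pos rfl, h3, coeff_zero] at this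
          exact this.symm
        rw [h4, zero_smul]
    have hJI := hirr.2 J hJs hIJ hJap
    -- a form of smaller degree
    have h1 : l * homogeneousComponent (e - 1) g₁ = g := by
      rw [← homogeneousComponent_mul hl, ← hg₁, homogeneousComponent_of_mem hg, if_pos]
      omega
    have h2 : homogeneousComponent (e - 1) g₁ ∈ I := by
      rw [← hJI, hmem, h1]
      exact hgI
    have h3 := hmin (e - 1) (by omega) _ h2 (homogeneousComponent_isHomogeneous _ _)
    rw [h3, mul_zero] at h1
    exact hg0 h1.symm
  -- the Hilbert function is constant from `d` on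
  have hconst : ∀ j, hilb I (d + j) = hilb I d := by
    intro j
    induction j with
    | zero => rfl
    | succ j ih =>
      rw [← ih, ← add_assoc]
      exact hilb_succ hI.toIsSaturatedHomogeneous (ne_top_of_isZeroDimScheme hI) hgI hg hg0 (by omega)
  have hdeg : degree I = hilb I d := degree_eq (eventually_atTop.2 ⟨d, fun i hi => by
    obtain ⟨j, rfl⟩ := Nat.exists_eq_add_of_le hi
    exact hconst j⟩)
  rw [reg, hdeg]
  exact Nat.sInf_le rfl

theorem M_two [IsAlgClosed K] (d : ℕ) : M K 2 d = d := by
  apply le_antisymm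
  · refine iSup_le fun f => iSup_le fun I => iSup_le fun h => ?_
    rw [Nat.cast_le]
    exact reg_le_two h.1 h.2.2.1 h.2.2.2
  · exact le_M_two d

end Pool.Agent.Y68.AR
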